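import Pool.Agent.helper24.SK.Spec

/-! # sk:CMW (helper49): comparison of the window with wide windows -/

set_option autoImplicit false

namespace Pool.Agent.SK

open Finset ArithmeticFunction MeasureTheory
open Pool.Agent.CH (nit DPb Win Tset ph)
open Pool.Agent.EC (tri vN fN XN TL AdT)
open Pool.Agent.helper85.BVP (tau)
open GD (ks)

theorem CMW_TL {r : ℕ} (N : ℕ) (a b : Fin r → ℝ) (m : ℕ) : 0 ≤ TL N a b m := by
  classical
  unfold TL
  exact Finset.sum_nonneg (fun p _ => vonMangoldt_nonneg)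

theorem CMW_layer (k₀ : ℕ) (hk : 0 < k₀) (t : ℝ) (ht : t ≤ 1) :
    t ≤ (1 / (k₀ : ℝ)) * ∑ k ∈ range k₀, (if (k : ℝ) / k₀ < t then (1 : ℝ) else 0) := by
  have hk' : (0 : ℝ) < k₀ := Nat.cast_pos.2 hk
  rw [← Finset.sum_filter, Finset.sum_const, nsmul_eq_mul, mul_one, one_div, inv_mul_eq_div,
    le_div_iff₀ hk']
  have h1 : t * k₀ ≤ (⌈t * k₀⌉₊ : ℝ) := Nat.le_ceil _
  have hsub : range ⌈t * k₀⌉₊ ⊆ (range k₀).filter (fun k : ℕ => (k : ℝ) / k₀ < t) := by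
    intro k hk1
    have h2 : (k : ℝ) < t * k₀ := Nat.lt_ceil.1 (Finset.mem_range.1 hk1)
    refine Finset.mem_filter.2 ⟨Finset.mem_range.2 ?_, ?_⟩
    · have h3 : (k : ℝ) < k₀ := by
        refine lt_of_lt_of_le h2 ?_
        calc t * k₀ ≤ 1 * k₀ := mul_le_mul_of_nonneg_right ht hk'.le
          _ = k₀ := one_mul _
      exact_mod_cast h3
    · rw [div_lt_iff₀ hk']
      exact h2
  have h4 := Finset.card_le_card hsub
  rw [Finset.card_range] at h4
  refine le_trans h1 ?_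
  exact_mod_cast h4

theorem CMW_sum (k₀ : ℕ) (hk : 0 < k₀) :
    (1 / (k₀ : ℝ)) * ∑ k ∈ range k₀, (1 - (k : ℝ) / k₀) = (1 + 1 / (k₀ : ℝ)) / 2 := by
  have hk' : (k₀ : ℝ) ≠ 0 := (Nat.cast_pos.2 hk).ne'
  have h1 : ∑ k ∈ range k₀, (k : ℝ) = (k₀ : ℝ) * (k₀ - 1) / 2 := by
    clear hk hk'
    induction k₀ with
    | zero => simp
    | succ n ih =>
      rw [Finset.sum_range_succ, ih]
      push_cast
      ring
  rw [Finset.sum_sub_distrib, ← Finset.sum_div, h1, Finset.sum_const, Finset.card_range, nsmul_eq_mul,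
    mul_one]
  field_simp
  ring

/-- the layer `k` -/
theorem CMW_k {r : ℕ} (N : ℕ) (a b : Fin r → ℝ) (X k k₀ : ℕ) (v δ : ℝ) (hδ : 0 < δ) :
    ∑ m ∈ Ioc 0 X, TL N a b m * (if (k : ℝ) / k₀ < tr0 v δ (Real.log m) then (1 : ℝ) else 0) ≤
      ∑ m ∈ Ioc ⌊Real.exp (v - (1 - (k : ℝ) / k₀) * δ)⌋₊
        ⌊Real.exp (v - (1 - (k : ℝ) / k₀) * δ) + (Real.exp (v + (1 - (k : ℝ) / k₀) * δ) -
          Real.exp (v - (1 - (k : ℝ) / k₀) * δ))⌋₊, TL N a b m := by
  classical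
  have h1 : ∀ m ∈ Ioc 0 X,
      TL N a b m * (if (k : ℝ) / k₀ < tr0 v δ (Real.log m) then (1 : ℝ) else 0) =
      if (k : ℝ) / k₀ < tr0 v δ (Real.log m) then TL N a b m else 0 := by
    intro m _
    by_cases h : (k : ℝ) / k₀ < tr0 v δ (Real.log m)
    · rw [if_pos h, if_pos h, mul_one]
    · rw [if_neg h, if_neg h, mul_zero]
  rw [Finset.sum_congr rfl h1, ← Finset.sum_filter]
  refine Finset.sum_le_sum_of_subset_of_nonneg ?_ (fun m _ _ => CMW_TL N a b m)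
  intro m hm
  obtain ⟨hm1, hm2⟩ := Finset.mem_filter.1 hm
  have hm0 : 0 < m := (Finset.mem_Ioc.1 hm1).1
  have hm0' : (0 : ℝ) < m := Nat.cast_pos.2 hm0
  have hk0 : (0 : ℝ) ≤ (k : ℝ) / k₀ := div_nonneg (Nat.cast_nonneg _) (Nat.cast_nonneg _)
  have h2 : (k : ℝ) / k₀ < 1 - |Real.log m - v| / δ := by
    unfold tr0 at hm2
    rcases lt_max_iff.1 hm2 with h | h
    · exact absurd h (not_lt.2 hk0)
    · exact h
  have h3 : |Real.log m - v| < (1 - (k : ℝ) / k₀) * δ := by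
    have h4 : |Real.log m - v| / δ < 1 - (k : ℝ) / k₀ := by linarith
    exact (div_lt_iff₀ hδ).1 h4
  obtain ⟨h4, h5⟩ := abs_lt.1 h3
  refine Finset.mem_Ioc.2 ⟨?_, ?_⟩
  · have h6 : Real.exp (v - (1 - (k : ℝ) / k₀) * δ) < m := by
      rw [← Real.lt_log_iff_exp_lt hm0']
      linarith
    exact (Nat.floor_lt (Real.exp_pos _).le).2 h6
  · have h6 : (m : ℝ) ≤ Real.exp (v - (1 - (k : ℝ) / k₀) * δ) + (Real.exp (v + (1 - (k : ℝ) / k₀) * δ) -
          Real.exp (v - (1 - (k : ℝ) / k₀) * δ)) := by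
      have h7 : (m : ℝ) < Real.exp (v + (1 - (k : ℝ) / k₀) * δ) := by
        rw [← Real.log_lt_iff_lt_exp hm0']
        linarith
      linarith
    exact Nat.le_floor h6

/-- elementary inequalities for the exponential function -/
theorem CMW_exp (s : ℝ) (hs0 : 0 ≤ s) (hs : s ≤ 1 / 4) :
    1 / 2 ≤ Real.exp (-s) ∧ Real.exp s - Real.exp (-s) ≤ 2 * s + s ^ 2 ∧
      2 * s * Real.exp (-s) ≤ Real.exp s - Real.exp (-s) ∧
      Real.exp s - Real.exp (-s) ≤ Real.exp (-s) := by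
  have h1 : 1 - s ≤ Real.exp (-s) := by
    have := Real.add_one_le_exp (-s)
    linarith
  have h2 : Real.exp s ≤ 1 + s + s ^ 2 := by
    have := Real.abs_exp_sub_one_sub_id_le (x := s) (by rw [abs_of_nonneg hs0]; linarith)
    have := (abs_le.1 this).2
    linarith
  have h3 : Real.exp s = Real.exp (2 * s) * Real.exp (-s) := by
    rw [← Real.exp_add]
    congr 1
    ring
  have h4 : 2 * s + 1 ≤ Real.exp (2 * s) := Real.add_one_le_exp (2 * s)
  have h5 : 0 < Real.exp (-s) := Real.exp_pos _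
  refine ⟨by linarith, by nlinarith, ?_, ?_⟩
  · rw [h3]
    nlinarith
  · nlinarith

theorem CMW_wide {r : ℕ} (N : ℕ) (a b : Fin r → ℝ) (X B k₀ : ℕ) (D v L : ℝ) (hk : 0 < k₀)
    (hD : 0 ≤ D) (hL : 4 ≤ L) (hB : 1 ≤ B) (hLk : (k₀ : ℝ) ≤ L)
    (hv1 : (N : ℝ) ^ 3 ≤ Real.exp v) (hv2 : Real.exp v ≤ 4 * (N : ℝ) ^ 3)
    (hW : ∀ u h : ℝ, (N : ℝ) ^ 3 / 2 ≤ u → u ≤ 4 * (N : ℝ) ^ 3 → u / L ^ (B + 1) ≤ h → h ≤ u →
      ∑ m ∈ Ioc ⌊u⌋₊ ⌊u + h⌋₊, TL N a b m ≤ D * h) :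
    ∑ m ∈ Ioc 0 X, TL N a b m * tr0 v (1 / L ^ B) (Real.log m) ≤
      D * (Real.exp v * ((1 / L ^ B) * (1 + 1 / (k₀ : ℝ) + 1 / L ^ B))) := by
  have hL0 : 0 < L := by linarith
  have hk' : (0 : ℝ) < k₀ := Nat.cast_pos.2 hk
  set δ : ℝ := 1 / L ^ B with hδdef
  have hδ : 0 < δ := by positivity
  have hδ4 : δ ≤ 1 / 4 := by
    rw [hδdef]
    refine one_div_le_one_div_of_le (by norm_num) ?_
    calc (4 : ℝ) ≤ L := hL
      _ = L ^ 1 := (pow_one L).symm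
      _ ≤ L ^ B := pow_le_pow_right₀ (by linarith) hB
  -- layers
  have hstep : ∑ m ∈ Ioc 0 X, TL N a b m * tr0 v δ (Real.log m) ≤
      (1 / (k₀ : ℝ)) * ∑ k ∈ range k₀, ∑ m ∈ Ioc 0 X,
        TL N a b m * (if (k : ℝ) / k₀ < tr0 v δ (Real.log m) then (1 : ℝ) else 0) := by
    rw [Finset.sum_comm, Finset.mul_sum]
    refine Finset.sum_le_sum (fun m _ => ?_)
    rw [← Finset.mul_sum]
    have h1 : tr0 v δ (Real.log m) ≤ 1 := by
      unfold tr0
      refine max_le (by norm_num) ?_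
      have : 0 ≤ |Real.log m - v| / δ := div_nonneg (abs_nonneg _) hδ.le
      linarith
    have h2 := mul_le_mul_of_nonneg_left (CMW_layer k₀ hk _ h1) (CMW_TL N a b m)
    refine le_trans h2 (le_of_eq ?_)
    ring
  refine le_trans hstep ?_
  have hlay : ∀ k ∈ range k₀, ∑ m ∈ Ioc 0 X,
        TL N a b m * (if (k : ℝ) / k₀ < tr0 v δ (Real.log m) then (1 : ℝ) else 0) ≤
      D * (Real.exp v * (2 * ((1 - (k : ℝ) / k₀) * δ) + δ ^ 2)) := by
    intro k hkk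
    have hkk' : (k : ℝ) + 1 ≤ k₀ := by exact_mod_cast Finset.mem_range.1 hkk
    set s : ℝ := (1 - (k : ℝ) / k₀) * δ with hs
    have hq : 1 / (k₀ : ℝ) ≤ 1 - (k : ℝ) / k₀ := by
      rw [div_le_iff₀ hk']
      have : (1 - (k : ℝ) / k₀) * k₀ = k₀ - k := by
        field_simp
      rw [this]
      linarith
    have hq1 : 1 - (k : ℝ) / k₀ ≤ 1 := by
      have : 0 ≤ (k : ℝ) / k₀ := by positivity
      linarith
    have hs1 : (1 / (k₀ : ℝ)) * δ ≤ s := mul_le_mul_of_nonneg_right hq hδ.le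
    have hs2 : s ≤ δ := by
      calc s ≤ 1 * δ := mul_le_mul_of_nonneg_right hq1 hδ.le
        _ = δ := one_mul _
    have hs0 : 0 < s := lt_of_lt_of_le (by positivity) hs1
    obtain ⟨e1, e2, e3, e4⟩ := CMW_exp s hs0.le (le_trans hs2 hδ4)
    have hev : 0 < Real.exp v := Real.exp_pos v
    have hu : Real.exp (v - s) = Real.exp v * Real.exp (-s) := by
      rw [← Real.exp_add]; congr 1
    have hh : Real.exp (v + s) - Real.exp (v - s) = Real.exp v * (Real.exp s - Real.exp (-s)) := by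
      rw [hu, Real.exp_add]; ring
    refine le_trans (CMW_k N a b X k k₀ v δ hδ) ?_
    rw [← hs]
    have hN3 : (0 : ℝ) ≤ (N : ℝ) ^ 3 := by positivity
    have hem : Real.exp (-s) ≤ 1 := by
      rw [Real.exp_le_one_iff]; linarith
    refine le_trans (hW _ _ ?_ ?_ ?_ ?_) ?_
    · rw [hu]
      nlinarith
    · rw [hu]
      nlinarith
    · rw [hh, hu, div_le_iff₀ (by positivity)]
      have h6 : 1 ≤ 2 * s * L ^ (B + 1) := by
        have h7 : (1 / (k₀ : ℝ)) * δ * L ^ (B + 1) = L / k₀ := by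
          rw [hδdef, pow_succ]
          field_simp
        have h8 : 1 ≤ L / k₀ := by
          rw [le_div_iff₀ hk', one_mul]; exact hLk
        have h9 : (1 / (k₀ : ℝ)) * δ * L ^ (B + 1) ≤ s * L ^ (B + 1) :=
          mul_le_mul_of_nonneg_right hs1 (by positivity)
        nlinarith
      have h10 : Real.exp (-s) ≤ (Real.exp s - Real.exp (-s)) * L ^ (B + 1) := by
        calc Real.exp (-s) = 1 * Real.exp (-s) := (one_mul _).symm
          _ ≤ (2 * s * L ^ (B + 1)) * Real.exp (-s) := mul_le_mul_of_nonneg_right h6 (Real.exp_pos _).le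
          _ = (2 * s * Real.exp (-s)) * L ^ (B + 1) := by ring
          _ ≤ (Real.exp s - Real.exp (-s)) * L ^ (B + 1) :=
            mul_le_mul_of_nonneg_right e3 (by positivity)
      calc Real.exp v * Real.exp (-s) ≤ Real.exp v * ((Real.exp s - Real.exp (-s)) * L ^ (B + 1)) :=
            mul_le_mul_of_nonneg_left h10 hev.le
        _ = Real.exp v * (Real.exp s - Real.exp (-s)) * L ^ (B + 1) := by ring
    · rw [hh, hu]
      exact mul_le_mul_of_nonneg_left e4 hev.le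
    · rw [hh]
      refine mul_le_mul_of_nonneg_left (mul_le_mul_of_nonneg_left ?_ hev.le) hD
      have h11 : s ^ 2 ≤ δ ^ 2 := pow_le_pow_left₀ hs0.le hs2 2
      linarith
  have hsum : (1 / (k₀ : ℝ)) * ∑ k ∈ range k₀, ∑ m ∈ Ioc 0 X,
        TL N a b m * (if (k : ℝ) / k₀ < tr0 v δ (Real.log m) then (1 : ℝ) else 0) ≤
      (1 / (k₀ : ℝ)) * ∑ k ∈ range k₀,
        D * (Real.exp v * (2 * ((1 - (k : ℝ) / k₀) * δ) + δ ^ 2)) :=
    mul_le_mul_of_nonneg_left (Finset.sum_le_sum hlay) (by positivity)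
  refine le_trans hsum (le_of_eq ?_)
  rw [← Finset.mul_sum, ← Finset.mul_sum, Finset.sum_add_distrib, Finset.sum_const, Finset.card_range,
    nsmul_eq_mul]
  have h12 : ∑ k ∈ range k₀, 2 * ((1 - (k : ℝ) / k₀) * δ) =
      2 * δ * ∑ k ∈ range k₀, (1 - (k : ℝ) / k₀) := by
    rw [Finset.mul_sum]
    exact Finset.sum_congr rfl (fun k _ => by ring)
  rw [h12]
  have h13 := CMW_sum k₀ hk
  have h14 : (1 / (k₀ : ℝ)) * (D * (Real.exp v * (2 * δ * ∑ k ∈ range k₀, (1 - (k : ℝ) / k₀) +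
      k₀ * δ ^ 2))) = D * (Real.exp v * (2 * δ * ((1 / (k₀ : ℝ)) * ∑ k ∈ range k₀, (1 - (k : ℝ) / k₀)) +
      (1 / (k₀ : ℝ)) * k₀ * δ ^ 2)) := by ring
  rw [h14, h13, one_div_mul_cancel hk'.ne']
  ring

theorem CMW (h1 : SPT_stmt) (h2 : WNF_stmt) (h3 : TRB_stmt) (h4 : TLB_stmt) : CMW_stmt := by
  intro r a b hA D hD hW κ hκ
  obtain ⟨B₀, hB₀⟩ := h1 r a b (Or.inr hA) 1 0
  obtain ⟨B, hBdef⟩ : ∃ B : ℕ, B = max B₀ 1 := ⟨_, rfl⟩
  have hB1 : 1 ≤ B := by rw [hBdef]; exact le_max_right _ _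
  obtain ⟨N₁, hN₁⟩ := hB₀ B (by rw [hBdef]; exact le_max_left _ _)
  obtain ⟨N₂, hN₂⟩ := h2
  obtain ⟨N₃, hN₃⟩ := hW (B + 1)
  -- the number of layers
  obtain ⟨k₀, hk₀⟩ := exists_nat_gt (8 * D / κ)
  have hk₀pos : 0 < k₀ := by
    have : (0 : ℝ) < k₀ := lt_of_le_of_lt (by positivity) hk₀
    exact_mod_cast this
  have hk' : (0 : ℝ) < k₀ := Nat.cast_pos.2 hk₀pos
  have hDk : D / k₀ ≤ κ / 8 := by
    rw [div_le_iff₀ hk']
    have := (div_lt_iff₀ hκ).1 hk₀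
    linarith
  -- the logarithm is large
  obtain ⟨M, hM⟩ : ∃ M : ℝ, M = 4 + k₀ + 16 * D / κ + 8 / κ + 80 * (D + κ) / κ := ⟨_, rfl⟩
  obtain ⟨N₄, hN₄⟩ := Filter.eventually_atTop.1
    ((Real.tendsto_log_atTop.comp tendsto_natCast_atTop_atTop).eventually_ge_atTop M)
  refine ⟨max (max N₁ N₂) (max N₃ (max N₄ 3)), ?_⟩
  intro N hN
  have hNN₁ : N₁ ≤ N := le_trans (le_trans (le_max_left _ _) (le_max_left _ _)) hN
  have hNN₂ : N₂ ≤ N := le_trans (le_trans (le_max_right _ _) (le_max_left _ _)) hN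
  have hNN₃ : N₃ ≤ N := le_trans (le_trans (le_max_left _ _) (le_max_right _ _)) hN
  have hNN₄ : N₄ ≤ N := le_trans (le_trans (le_max_left _ _) (le_trans (le_max_right _ _)
    (le_max_right _ _))) hN
  have hN3 : 3 ≤ N := le_trans (le_trans (le_max_right _ _) (le_trans (le_max_right _ _)
    (le_max_right _ _))) hN
  have hNr : (3 : ℝ) ≤ N := by exact_mod_cast hN3
  have hN0 : (0 : ℝ) < N := by linarith
  obtain ⟨hv, hwin, hX⟩ := hN₂ N hNN₂
  set L : ℝ := Real.log N with hLdef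
  have hLM : M ≤ L := hN₄ N hNN₄
  have p1 : 0 ≤ 16 * D / κ := by positivity
  have p2 : 0 ≤ 8 / κ := by positivity
  have p3 : 0 ≤ 80 * (D + κ) / κ := by positivity
  have hL4 : 4 ≤ L := by rw [hM] at hLM; linarith [hk'.le]
  have hLk : (k₀ : ℝ) ≤ L := by rw [hM] at hLM; linarith
  have hL16 : 16 * D / κ ≤ L := by rw [hM] at hLM; linarith [hk'.le]
  have hL8 : 8 / κ ≤ L := by rw [hM] at hLM; linarith [hk'.le]
  have hL80 : 80 * (D + κ) / κ ≤ L := by rw [hM] at hLM; linarith [hk'.le]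
  have hL0 : 0 < L := by linarith
  have hLN : L ≤ N := by
    have := Real.log_le_sub_one_of_pos hN0
    linarith
  set v : ℝ := vN N with hvdef
  set X : ℕ := 64 * N ^ 3 with hXdef
  -- the weighted sum
  have hS : ∑ m ∈ Win N, TL N a b m * fN N m =
      ∑ m ∈ Ioc 0 X, TL N a b m * tr0 v (1 / (N : ℝ)) (Real.log m) := by
    have h := hwin (fun m => ((TL N a b m : ℝ) : ℂ))
    have h' : ((∑ m ∈ Win N, TL N a b m * fN N m : ℝ) : ℂ) =
        ((∑ m ∈ Ioc 0 X, TL N a b m * tr0 v (1 / (N : ℝ)) (Real.log m) : ℝ) : ℂ) := by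
      rw [Complex.ofReal_sum, Complex.ofReal_sum]
      simp only [Complex.ofReal_mul]
      exact h
    exact Complex.ofReal_injective h'
  -- the part with g0
  have hG : |∑ m ∈ Ioc 0 X, TL N a b m * g0 B N v (Real.log m)| ≤ (N : ℝ) ^ 2 / L := by
    have h := hN₁ N hNN₁ v hv 1 (le_refl 1) (by simp) (1 : DirichletCharacter ℂ 1)
    have h' : ∑ m ∈ Ioc 0 (64 * N ^ 3), ((TL N a b m : ℝ) : ℂ) * (1 : DirichletCharacter ℂ 1) m *
        gj B N v m = ((∑ m ∈ Ioc 0 X, TL N a b m * g0 B N v (Real.log m) : ℝ) : ℂ) := by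
      rw [Complex.ofReal_sum]
      refine Finset.sum_congr rfl (fun m _ => ?_)
      have h5 : (1 : DirichletCharacter ℂ 1) (m : ZMod 1) = 1 :=
        MulChar.one_apply (isUnit_of_subsingleton _)
      rw [h5, mul_one, Complex.ofReal_mul]
      rfl
    rw [h', Complex.norm_real, Real.norm_eq_abs, pow_one] at h
    exact h
  have hsplit : ∑ m ∈ Ioc 0 X, TL N a b m * tr0 v (1 / (N : ℝ)) (Real.log m) =
      ∑ m ∈ Ioc 0 X, TL N a b m * g0 B N v (Real.log m) +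
        L ^ B / N * ∑ m ∈ Ioc 0 X, TL N a b m * tr0 v (1 / L ^ B) (Real.log m) := by
    rw [Finset.mul_sum, ← Finset.sum_add_distrib]
    refine Finset.sum_congr rfl (fun m _ => ?_)
    unfold g0
    ring
  -- size of exp v
  have hev : Real.exp v = (N : ℝ) ^ 3 * Real.exp (5 / (4 * (N : ℝ))) := by
    rw [hvdef]
    unfold vN
    rw [Real.exp_add]
    congr 1
    have : (3 : ℝ) * Real.log N = Real.log ((N : ℝ) ^ 3) := by
      rw [Real.log_pow]; norm_num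
    rw [this, Real.exp_log (by positivity)]
  have hx1 : 5 / (4 * (N : ℝ)) ≤ 1 := by
    rw [div_le_one (by positivity)]
    linarith
  have hx0 : 0 ≤ 5 / (4 * (N : ℝ)) := by positivity
  have he1 : Real.exp (5 / (4 * (N : ℝ))) ≤ 1 + 3 / N := by
    have := (abs_le.1 (Real.abs_exp_sub_one_sub_id_le (x := 5 / (4 * (N : ℝ)))
      (by rw [abs_of_nonneg hx0]; exact hx1))).2
    have h6 : (5 / (4 * (N : ℝ))) ^ 2 ≤ 7 / 4 / N := by
      have : (5 / (4 * (N : ℝ))) ^ 2 = 25 / 16 / N * (1 / N) := by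
        field_simp
        norm_num
      rw [this]
      have h7 : (1 : ℝ) / N ≤ 1 := by rw [div_le_one hN0]; linarith
      have h8 : (0 : ℝ) ≤ 25 / 16 / N := by positivity
      calc 25 / 16 / (N : ℝ) * (1 / N) ≤ 25 / 16 / N * 1 := mul_le_mul_of_nonneg_left h7 h8
        _ = 25 / 16 / N := mul_one _
        _ ≤ 7 / 4 / N := div_le_div_of_nonneg_right (by norm_num) hN0.le
    have h9 : 5 / (4 * (N : ℝ)) = 5 / 4 / N := by field_simp
    have h10 : 5 / 4 / (N : ℝ) + 7 / 4 / N = 3 / N := by ring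
    linarith
  have hv1 : (N : ℝ) ^ 3 ≤ Real.exp v := by
    rw [hev]
    have : 1 ≤ Real.exp (5 / (4 * (N : ℝ))) := Real.one_le_exp hx0
    have h11 : (0 : ℝ) ≤ (N : ℝ) ^ 3 := by positivity
    nlinarith
  have h3N : 3 / (N : ℝ) ≤ 1 := by rw [div_le_one hN0]; exact hNr
  have hv2 : Real.exp v ≤ 4 * (N : ℝ) ^ 3 := by
    rw [hev]
    have h11 : (0 : ℝ) ≤ (N : ℝ) ^ 3 := by positivity
    have h12 : Real.exp (5 / (4 * (N : ℝ))) ≤ 4 := by linarith
    nlinarith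
  have hwide := CMW_wide N a b X B k₀ D v L hk₀pos hD hL4 hB1 hLk hv1 hv2
    (fun u h q1 q2 q3 q4 => hN₃ N hNN₃ u h q1 q2 q3 q4)
  -- collect
  rw [hS, hsplit]
  have hLB : 0 < L ^ B := by positivity
  have hδL : 1 / L ^ B ≤ 1 / L := by
    refine one_div_le_one_div_of_le hL0 ?_
    calc L = L ^ 1 := (pow_one L).symm
      _ ≤ L ^ B := pow_le_pow_right₀ (by linarith) hB1
  have hmain : L ^ B / N * ∑ m ∈ Ioc 0 X, TL N a b m * tr0 v (1 / L ^ B) (Real.log m) ≤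
      D * ((N : ℝ) ^ 2 * (1 + 3 / N) * (1 + 1 / (k₀ : ℝ) + 1 / L)) := by
    have h13 : L ^ B / N * ∑ m ∈ Ioc 0 X, TL N a b m * tr0 v (1 / L ^ B) (Real.log m) ≤
        L ^ B / N * (D * (Real.exp v * ((1 / L ^ B) * (1 + 1 / (k₀ : ℝ) + 1 / L ^ B)))) :=
      mul_le_mul_of_nonneg_left hwide (by positivity)
    refine le_trans h13 ?_
    have h14 : L ^ B / N * (D * (Real.exp v * ((1 / L ^ B) * (1 + 1 / (k₀ : ℝ) + 1 / L ^ B)))) =
        D * (Real.exp v / N * (1 + 1 / (k₀ : ℝ) + 1 / L ^ B)) := by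
      field_simp
    rw [h14]
    refine mul_le_mul_of_nonneg_left ?_ hD
    refine mul_le_mul ?_ (by linarith) (by positivity) (by positivity)
    rw [hev, div_le_iff₀ hN0]
    have h15 : (N : ℝ) ^ 3 * Real.exp (5 / (4 * (N : ℝ))) ≤ (N : ℝ) ^ 3 * (1 + 3 / N) :=
      mul_le_mul_of_nonneg_left he1 (by positivity)
    refine le_trans h15 (le_of_eq ?_)
    ring
  have hXN : (N : ℝ) ^ 2 - 10 * N ≤ XN N := by
    have := (abs_le.1 hX).1
    linarith
  have hfin : (N : ℝ) ^ 2 / L + D * ((N : ℝ) ^ 2 * (1 + 3 / N) * (1 + 1 / (k₀ : ℝ) + 1 / L)) ≤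
      (D + κ) * ((N : ℝ) ^ 2 - 10 * N) := by
    have q1 : 1 / L ≤ κ / 8 := by
      rw [div_le_iff₀ hL0]
      have := (div_le_iff₀ hκ).1 hL8
      linarith
    have q2 : D / L ≤ κ / 16 := by
      rw [div_le_iff₀ hL0]
      have := (div_le_iff₀ hκ).1 hL16
      linarith
    have q3 : 80 * (D + κ) / N ≤ κ := by
      rw [div_le_iff₀ hN0]
      have := (div_le_iff₀ hκ).1 (le_trans hL80 hLN)
      linarith
    have q4 : (0 : ℝ) ≤ 3 / N := by positivity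
    have q5 : D * (3 / N) ≤ κ / 8 := by
      have h16 : D * (3 / N) ≤ 80 * (D + κ) / N / 8 := by
        have h17 : 80 * (D + κ) / (N : ℝ) / 8 - D * (3 / N) = (7 * D + 10 * κ) / N := by ring
        have h18 : 0 ≤ (7 * D + 10 * κ) / (N : ℝ) := by positivity
        linarith
      linarith
    have q6 : (D + κ) * (10 / N) ≤ κ / 8 := by
      have : (D + κ) * (10 / (N : ℝ)) = 80 * (D + κ) / N / 8 := by ring
      rw [this]
      linarith
    have q7 : D * ((1 + 3 / (N : ℝ)) * (1 + 1 / (k₀ : ℝ) + 1 / L)) ≤ D + κ / 8 + κ / 4 + κ / 8 := by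
      have h19 : D * ((1 + 3 / (N : ℝ)) * (1 + 1 / (k₀ : ℝ) + 1 / L)) =
          D + D * (3 / N) + (1 + 3 / N) * (D / k₀) + (1 + 3 / N) * (D / L) := by ring
      rw [h19]
      have h20 : (1 + 3 / (N : ℝ)) * (D / k₀) ≤ 2 * (κ / 8) :=
        mul_le_mul (by linarith) hDk (by positivity) (by norm_num)
      have h21 : (1 + 3 / (N : ℝ)) * (D / L) ≤ 2 * (κ / 16) :=
        mul_le_mul (by linarith) q2 (by positivity) (by norm_num)
      linarith
    have h22 : (N : ℝ) ^ 2 / L + D * ((N : ℝ) ^ 2 * (1 + 3 / N) * (1 + 1 / (k₀ : ℝ) + 1 / L)) =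
        (N : ℝ) ^ 2 * (1 / L + D * ((1 + 3 / (N : ℝ)) * (1 + 1 / (k₀ : ℝ) + 1 / L))) := by ring
    have h23 : (D + κ) * ((N : ℝ) ^ 2 - 10 * N) = (N : ℝ) ^ 2 * (D + κ - (D + κ) * (10 / N)) := by
      field_simp
    rw [h22, h23]
    refine mul_le_mul_of_nonneg_left ?_ (by positivity)
    linarith
  have hG' := (abs_le.1 hG).2
  calc ∑ m ∈ Ioc 0 X, TL N a b m * g0 B N v (Real.log m) +
        L ^ B / N * ∑ m ∈ Ioc 0 X, TL N a b m * tr0 v (1 / L ^ B) (Real.log m)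
      ≤ (N : ℝ) ^ 2 / L + D * ((N : ℝ) ^ 2 * (1 + 3 / N) * (1 + 1 / (k₀ : ℝ) + 1 / L)) :=
        add_le_add hG' hmain
    _ ≤ (D + κ) * ((N : ℝ) ^ 2 - 10 * N) := hfin
    _ ≤ (D + κ) * XN N := mul_le_mul_of_nonneg_left hXN (by positivity)

end Pool.Agent.SK
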